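import Pool.Agent.helper98.RPQ.SpecR
import Pool.Agent.helper62.RS.All

/-!
# MP_07c750, project RPQ, row UNK: unrolling of composed kernels, complex valued
-/

set_option autoImplicit false

open scoped MatrixGroups ContDiff Topology UpperHalfPlane ComplexConjugate ENNReal
open UpperHalfPlane MeasureTheory Filter Set

namespace Pool.Agent.RPQ

open Pool.Agent.RS
open Pool.Agent.MS (BA BB st pf gk Dk amk)

noncomputable section

theorem UNK_ball (g : SL(2, ℝ)) (D : ℝ) : mG {p : SL(2, ℝ) | dist (g • I : ℍ) (p • I) ≤ D} < ⊤ := by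
  have h1 : IsCompact {p : SL(2, ℝ) | p • I ∈ Metric.closedBall (g • I : ℍ) D} :=
    RS.A_GLC.2.2.1 _ (isCompact_closedBall _ _)
  refine lt_of_le_of_lt (measure_mono ?_) (RS.A_GMG.2.1 _ h1)
  intro p hp
  rw [mem_setOf_eq, Metric.mem_closedBall, dist_comm]
  exact hp

theorem UNK_int {X : Type*} [MeasurableSpace X] (μ : Measure X) (f : X → ℂ) (hf : Measurable f) (B : ℝ)
    (hB : ∀ x, ‖f x‖ ≤ B) (T : Set X) (hT : μ T ≠ ⊤) (hsupp : ∀ x, f x ≠ 0 → x ∈ T) : Integrable f μ := by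
  have h1 : IntegrableOn f T μ :=
    Measure.integrableOn_of_bounded hT hf.aestronglyMeasurable (ae_of_all _ hB)
  exact (integrableOn_iff_integrable_of_support_subset (fun x hx => hsupp x hx)).1 h1

theorem UNK_vxm {n : ℕ} (h : SL(2, ℝ)) (j : ℕ) :
    Measurable fun q : SL(2, ℝ) × (Fin n → SL(2, ℝ)) => vx q.1 h q.2 j := by
  cases j with
  | zero =>
    have : (fun q : SL(2, ℝ) × (Fin n → SL(2, ℝ)) => vx q.1 h q.2 0) = fun q => q.1 := rfl
    rw [this]
    exact measurable_fst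
  | succ j =>
    by_cases hj : j < n
    · have : (fun q : SL(2, ℝ) × (Fin n → SL(2, ℝ)) => vx q.1 h q.2 (j + 1)) = fun q => q.2 ⟨j, hj⟩ := by
        funext q
        simp only [vx, dif_pos hj]
      rw [this]
      exact (measurable_pi_apply _).comp measurable_snd
    · have : (fun q : SL(2, ℝ) × (Fin n → SL(2, ℝ)) => vx q.1 h q.2 (j + 1)) = fun _ => h := by
        funext q
        simp only [vx, dif_neg hj]
      rw [this]
      exact measurable_const

/-- the product along a path -/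
def UNK_P (n : ℕ) (s : ℕ → SL(2, ℝ) → SL(2, ℝ) → ℂ) (g h : SL(2, ℝ)) (v : Fin n → SL(2, ℝ)) : ℂ :=
  ∏ j ∈ Finset.range (n + 1), s j (vx g h v j) (vx g h v (j + 1))

theorem UNK_Pm (n : ℕ) (s : ℕ → SL(2, ℝ) → SL(2, ℝ) → ℂ) (hs : ∀ j, Measurable (Function.uncurry (s j))) (h : SL(2, ℝ)) :
    Measurable fun q : SL(2, ℝ) × (Fin n → SL(2, ℝ)) => UNK_P n s q.1 h q.2 := by
  unfold UNK_P
  refine Finset.measurable_fun_prod _ fun j _ => ?_
  exact (hs j).comp ((UNK_vxm h j).prodMk (UNK_vxm h (j + 1)))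

theorem UNK_Pb (n : ℕ) (s : ℕ → SL(2, ℝ) → SL(2, ℝ) → ℂ) (B : ℕ → ℝ) (hB : ∀ j g h, ‖s j g h‖ ≤ B j) (g h : SL(2, ℝ))
    (v : Fin n → SL(2, ℝ)) : ‖UNK_P n s g h v‖ ≤ ∏ j ∈ Finset.range (n + 1), B j := by
  unfold UNK_P
  rw [norm_prod]
  exact Finset.prod_le_prod (fun _ _ => norm_nonneg _) fun j _ => hB j _ _

theorem UNK_Ps (n : ℕ) (s : ℕ → SL(2, ℝ) → SL(2, ℝ) → ℂ) (D : ℕ → ℝ) (hD0 : ∀ j, 0 ≤ D j)
    (hD : ∀ j g h, s j g h ≠ 0 → dist (g • I : ℍ) (h • I) ≤ D j) (g h : SL(2, ℝ))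
    (v : Fin n → SL(2, ℝ)) (hne : UNK_P n s g h v ≠ 0) (i : Fin n) :
    dist (g • I : ℍ) (v i • I) ≤ ∑ j ∈ Finset.range (n + 1), D j := by
  unfold UNK_P at hne
  rw [Finset.prod_ne_zero_iff] at hne
  have key : ∀ j, j ≤ n + 1 → dist (g • I : ℍ) (vx g h v j • I) ≤ ∑ i ∈ Finset.range j, D i := by
    intro j
    induction j with
    | zero =>
      intro _
      show dist (g • I : ℍ) (g • I) ≤ _
      rw [dist_self, Finset.range_zero, Finset.sum_empty]
    | succ j ih =>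
      intro hj
      rw [Finset.sum_range_succ]
      refine (dist_triangle _ (vx g h v j • I : ℍ) _).trans (add_le_add (ih (by omega)) ?_)
      exact hD j _ _ (hne j (Finset.mem_range.2 (by omega)))
  have hi := i.2
  have h1 := key (i.1 + 1) (by omega)
  have h2 : vx g h v (i.1 + 1) = v i := by
    simp only [vx, dif_pos hi]
  rw [h2] at h1
  refine h1.trans ?_
  refine Finset.sum_le_sum_of_subset_of_nonneg ?_ fun j _ _ => hD0 j
  intro j hj
  rw [Finset.mem_range] at hj ⊢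
  omega

theorem UNK_pib (n : ℕ) (g : SL(2, ℝ)) (D : ℝ) :
    mP n (Set.univ.pi fun _ : Fin n => {p : SL(2, ℝ) | dist (g • I : ℍ) (p • I) ≤ D}) ≠ ⊤ := by
  have : SigmaFinite mG := RS.A_GMG.2.2.1
  unfold mP
  rw [Measure.pi_pi]
  exact ENNReal.prod_ne_top fun _ _ => (UNK_ball g D).ne

theorem UNK_Pi (n : ℕ) (s : ℕ → SL(2, ℝ) → SL(2, ℝ) → ℂ) (hs : ∀ j, Measurable (Function.uncurry (s j)))
    (B : ℕ → ℝ) (hB : ∀ j g h, ‖s j g h‖ ≤ B j) (D : ℕ → ℝ) (hD0 : ∀ j, 0 ≤ D j)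
    (hD : ∀ j g h, s j g h ≠ 0 → dist (g • I : ℍ) (h • I) ≤ D j) (g h : SL(2, ℝ)) :
    Integrable (fun v => UNK_P n s g h v) (mP n) := by
  refine UNK_int _ _ ((UNK_Pm n s hs h).comp measurable_prodMk_left) _ (UNK_Pb n s B hB g h) _
    (UNK_pib n g (∑ j ∈ Finset.range (n + 1), D j)) fun v hv => ?_
  rw [mem_univ_pi]
  intro i
  exact UNK_Ps n s D hD0 hD g h v hv i

theorem UNK_form (hVXI : VXI_stmt) (h : SL(2, ℝ)) (n : ℕ) : ∀ s : ℕ → SL(2, ℝ) → SL(2, ℝ) → ℂ,
    (∀ j, Measurable (Function.uncurry (s j))) → ∀ B : ℕ → ℝ, (∀ j g h, ‖s j g h‖ ≤ B j) → ∀ D : ℕ → ℝ, (∀ j, 0 ≤ D j) →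
    (∀ j g h, s j g h ≠ 0 → dist (g • I : ℍ) (h • I) ≤ D j) → ∀ g : SL(2, ℝ), pK n s g h = ∫ v, UNK_P n s g h v ∂mP n := by
  obtain ⟨-, hv2, hv3, -, -, hv6, -, hv8⟩ := hVXI
  induction n with
  | zero =>
    intro s hs B hB D hD0 hD g
    have h1 : ∀ v : Fin 0 → SL(2, ℝ), UNK_P 0 s g h v = s 0 g h := by
      intro v
      unfold UNK_P
      rw [zero_add, Finset.prod_range_one, (hv3 0 g h v).1, (hv3 0 g h v).2]
    simp only [h1]
    unfold mP
    rw [Measure.pi_of_empty]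
    rw [integral_const]
    show s 0 g h = _
    simp
  | succ n ih =>
    intro s hs B hB D hD0 hD g
    have hsf : SigmaFinite mG := RS.A_GMG.2.2.1
    have hsf' : SigmaFinite (mP n) := hv6 n
    set s' : ℕ → SL(2, ℝ) → SL(2, ℝ) → ℂ := fun j => s (j + 1) with hs'
    have ih' := ih s' (fun j => hs (j + 1)) (fun j => B (j + 1)) (fun j => hB (j + 1)) (fun j => D (j + 1))
      (fun j => hD0 (j + 1)) (fun j => hD (j + 1))
    set f : SL(2, ℝ) × (Fin n → SL(2, ℝ)) → ℂ := fun q => s 0 g q.1 * UNK_P n s' q.1 h q.2 with hf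
    have hfm : Measurable f := by
      refine Measurable.mul ?_ (UNK_Pm n s' (fun j => hs (j + 1)) h)
      exact (hs 0).comp (measurable_const.prodMk measurable_fst)
    have hfb : ∀ q, ‖f q‖ ≤ B 0 * ∏ j ∈ Finset.range (n + 1), B (j + 1) := by
      intro q
      rw [hf]
      simp only []
      rw [norm_mul]
      refine mul_le_mul (hB 0 _ _) (UNK_Pb n s' (fun j => B (j + 1)) (fun j => hB (j + 1)) _ _ _) (norm_nonneg _) ?_
      exact (norm_nonneg _).trans (hB 0 g g)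
    have hfi : Integrable f (mG.prod (mP n)) := by
      refine UNK_int _ f hfm _ hfb ({p : SL(2, ℝ) | dist (g • I : ℍ) (p • I) ≤ D 0} ×ˢ
        (Set.univ.pi fun _ : Fin n => {p : SL(2, ℝ) | dist (g • I : ℍ) (p • I) ≤ D 0 + ∑ j ∈ Finset.range (n + 1), D (j + 1)})) ?_ ?_
      · rw [Measure.prod_prod]
        exact ENNReal.mul_ne_top (UNK_ball g _).ne (UNK_pib n g _)
      · intro q hq
        have h1 : s 0 g q.1 ≠ 0 := fun h0 => hq (by rw [hf]; simp only []; rw [h0, zero_mul])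
        have h2 : UNK_P n s' q.1 h q.2 ≠ 0 := fun h0 => hq (by rw [hf]; simp only []; rw [h0, mul_zero])
        have h3 := hD 0 _ _ h1
        refine ⟨h3, ?_⟩
        rw [mem_univ_pi]
        intro i
        have h4 := UNK_Ps n s' (fun j => D (j + 1)) (fun j => hD0 (j + 1)) (fun j => hD (j + 1)) q.1 h q.2 h2 i
        exact (dist_triangle _ _ _).trans (add_le_add h3 h4)
    have h5 : ∀ v : Fin (n + 1) → SL(2, ℝ), UNK_P (n + 1) s g h v = f (v 0, fun i => v i.succ) := by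
      intro v
      unfold UNK_P
      rw [Finset.prod_range_succ', mul_comm]
      rw [hf]
      simp only []
      unfold UNK_P
      have h6 : vx g h v 0 = g := rfl
      have h7 : vx g h v (0 + 1) = v 0 := by
        rw [hv2 n g h v 0]
        rfl
      rw [h6, h7]
      refine congrArg₂ _ rfl (Finset.prod_congr rfl fun j _ => ?_)
      rw [hv2 n g h v j, hv2 n g h v (j + 1)]
    calc pK (n + 1) s g h = ∫ p, s 0 g p * pK n s' p h ∂mG := rfl
      _ = ∫ p, ∫ v, f (p, v) ∂mP n ∂mG := by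
          refine integral_congr_ae (ae_of_all _ fun p => ?_)
          simp only []
          rw [ih' p, ← integral_const_mul]
      _ = ∫ v : Fin (n + 1) → SL(2, ℝ), f (v 0, fun i => v i.succ) ∂mP (n + 1) := (hv8 n f hfi).symm
      _ = ∫ v, UNK_P (n + 1) s g h v ∂mP (n + 1) := by
          simp only [h5]

theorem UNK_proof (hVXI : VXI_stmt) (hKPG : KPG_stmt) : UNK_stmt := by
  intro Γ F hΓ hF s hs n
  have hG : ∀ n : ℕ, ∀ s : ℕ → SL(2, ℝ) → SL(2, ℝ) → ℂ, (∀ j, GKer Γ (s j)) → GKer Γ (pK n s) := by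
    intro n
    induction n with
    | zero => exact fun s hs => hs 0
    | succ n ih =>
      intro s hs
      exact ((hKPG Γ F hΓ hF).2 (s 0) (pK n fun j => s (j + 1)) (hs 0) (ih _ fun j => hs (j + 1))).1
  refine ⟨hG n s hs, ?_⟩
  have hB := fun j => (hs j).bdd
  choose B hB using hB
  have hD := fun j => (hs j).range
  choose D hD using hD
  have hD' : ∀ j g h, s j g h ≠ 0 → dist (g • I : ℍ) (h • I) ≤ |D j| := fun j g h hne => (hD j g h hne).trans (le_abs_self _)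
  intro g h
  exact ⟨UNK_Pi n s (fun j => (hs j).meas) B hB (fun j => |D j|) (fun j => abs_nonneg _) hD' g h,
    UNK_form hVXI h n s (fun j => (hs j).meas) B hB (fun j => |D j|) (fun j => abs_nonneg _) hD' g⟩

end

end Pool.Agent.RPQ
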