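import Pool.Agent.helper29.RPQ.SpecP
import Pool.Agent.helper49.MS.OV3

/-!
# MP_07c750, project RPQ, row AM1: uniform bounds for the coordinates, the amplitude and the phase
-/

set_option autoImplicit false

open scoped MatrixGroups ContDiff Topology UpperHalfPlane ComplexConjugate
open UpperHalfPlane MeasureTheory Filter Set

namespace Pool.Agent.RPQ

open Pool.Agent.RS
open Pool.Agent.MS (BA BB st pf gk Dk amk)
open Pool.Agent.MS (OV3_E OV3_N OV3_L OV3_H OV3_Npos OV3_Ns OV3_Ls OV3_Hs OV3_lx OV3_lt OV3_inv OV3_Dk OV3_low OV3_dx OV3_dt OV3_bd)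

noncomputable section

/-- the coordinates as a function of the entries of the inverse -/
def AM1_Q (q : OV3_E) : ℝ × ℝ := ((OV1_A q / OV1_B q).re, Real.log (OV1_A q / OV1_B q).im)

/-- the amplitude as a function of the entries of the inverse -/
def AM1_P (q : OV3_E) : ℝ := OV3_N q ^ (-(1 / 2 : ℝ))

lemma AM1_Qs : ContDiffOn ℝ ∞ AM1_Q OV1_U := by
  have h2 : ContDiffOn ℝ ∞ (fun q : OV3_E => OV1_A q / OV1_B q) OV1_U := by
    have h3 : ContDiffOn ℝ ∞ (fun q : OV3_E => OV1_A q * (OV1_B q)⁻¹) OV1_U :=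
      (OV1_As.contDiffOn).mul ((OV1_Bs.contDiffOn).inv OV1_Bne)
    simpa only [div_eq_mul_inv] using h3
  have h4 : ContDiffOn ℝ ∞ (fun q : OV3_E => (OV1_A q / OV1_B q).re) OV1_U :=
    Complex.reCLM.contDiff.comp_contDiffOn h2
  have h5 : ContDiffOn ℝ ∞ (fun q : OV3_E => (OV1_A q / OV1_B q).im) OV1_U :=
    Complex.imCLM.contDiff.comp_contDiffOn h2
  exact h4.prodMk (h5.log fun q hq => (OV1_im q hq).ne')

lemma AM1_Ps : ContDiffOn ℝ ∞ AM1_P OV1_U :=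
  ContDiffOn.rpow_const_of_ne OV3_Ns.contDiffOn fun q hq => (OV3_Npos q hq).ne'

lemma AM1_qm (b : SL(2, ℝ)) (x τ : ℝ) : qm b x τ = AM1_Q (OV1_e b⁻¹, (x, τ)) := by
  have h1 : ((b⁻¹ • pt x τ : ℍ) : ℂ) = OV1_A (OV1_e b⁻¹, (x, τ)) / OV1_B (OV1_e b⁻¹, (x, τ)) := by
    rw [OV1_coe, OV1_pt]
    rfl
  unfold qm AM1_Q
  rw [← h1]
  rfl

theorem AM1_proof : AM1_stmt := by
  intro n0
  obtain ⟨KK, hKK⟩ : ∃ KK : Set OV3_E, KK =
    ((Icc (-3) 3 ×ˢ (Icc (-3) 3 ×ˢ (Icc (-3) 3 ×ˢ Icc (-3) 3))) ×ˢ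
      (Icc (-(1 / 4)) (1 / 4) ×ˢ Icc (-(1 / 4)) (1 / 4))) ∩
      {q | q.1.1 * q.1.2.2.2 - q.1.2.1 * q.1.2.2.1 = 1} := ⟨_, rfl⟩
  have hKc : IsCompact KK := by
    rw [hKK]
    refine IsCompact.inter_right ?_ ?_
    · exact (isCompact_Icc.prod (isCompact_Icc.prod (isCompact_Icc.prod isCompact_Icc))).prod
        (isCompact_Icc.prod isCompact_Icc)
    · exact isClosed_eq (by fun_prop) continuous_const
  have hKU : KK ⊆ OV1_U := by
    intro q hq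
    rw [hKK] at hq
    show 0 < (OV1_A q * conj (OV1_B q)).im
    rw [OV1_val, hq.2, one_mul]
    exact Real.exp_pos _
  obtain ⟨M1, hM1, hb1⟩ := OV3_bd OV1_U OV1_Uo KK hKc hKU ((0, (1, 0)) : OV3_E) n0 AM1_Q AM1_Qs
  obtain ⟨M2, hM2, hb2⟩ := OV3_bd OV1_U OV1_Uo KK hKc hKU ((0, (0, 1)) : OV3_E) n0 AM1_Q AM1_Qs
  obtain ⟨M5, hM5, hb5⟩ := OV3_bd OV1_U OV1_Uo KK hKc hKU ((0, (1, 0)) : OV3_E) n0 AM1_P AM1_Ps
  obtain ⟨M6, hM6, hb6⟩ := OV3_bd OV1_U OV1_Uo KK hKc hKU ((0, (0, 1)) : OV3_E) n0 AM1_P AM1_Ps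
  obtain ⟨M3, hM3, hb3⟩ := OV3_bd OV1_U OV1_Uo KK hKc hKU ((0, (0, 1)) : OV3_E) (n0 + 1) OV3_L OV3_Ls
  obtain ⟨M4, hM4, hb4⟩ := OV3_bd OV1_U OV1_Uo KK hKc hKU ((0, (1, 0)) : OV3_E) n0 OV3_H OV3_Hs
  refine ⟨1 + M1 + M2 + M3 + 2 * M4 + M5 + M6, by linarith, ?_⟩
  intro k hk
  have hmU : ∀ x τ : ℝ, ((OV1_e k⁻¹, (x, τ)) : OV3_E) ∈ OV1_U := fun x τ => OV1_mem _ _
  have hDpos : ∀ x τ : ℝ, 0 < Dk k x τ := by
    intro x τ
    rw [OV3_Dk]
    exact OV3_Npos _ (hmU x τ)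
  have hcx : ∀ τ : ℝ, ContDiff ℝ ∞ (fun x : ℝ => ((OV1_e k⁻¹, (x, τ)) : OV3_E)) := fun τ =>
    contDiff_const.prodMk (contDiff_id.prodMk contDiff_const)
  have hct : ∀ x : ℝ, ContDiff ℝ ∞ (fun τ : ℝ => ((OV1_e k⁻¹, (x, τ)) : OV3_E)) := fun x =>
    contDiff_const.prodMk (contDiff_const.prodMk contDiff_id)
  have eqx : ∀ τ : ℝ, (fun x => qm k x τ) = fun x => AM1_Q (OV1_e k⁻¹, (x, τ)) := fun τ => by
    funext x
    exact AM1_qm k x τ
  have eqt : ∀ x : ℝ, (fun τ => qm k x τ) = fun τ => AM1_Q (OV1_e k⁻¹, (x, τ)) := fun x => by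
    funext τ
    exact AM1_qm k x τ
  have epx : ∀ τ : ℝ, (fun x => Dk k x τ ^ (-(1 / 2 : ℝ))) = fun x => AM1_P (OV1_e k⁻¹, (x, τ)) :=
    fun τ => by
      funext x
      rw [OV3_Dk]
      rfl
  have ept : ∀ x : ℝ, (fun τ => Dk k x τ ^ (-(1 / 2 : ℝ))) = fun τ => AM1_P (OV1_e k⁻¹, (x, τ)) :=
    fun x => by
      funext τ
      rw [OV3_Dk]
      rfl
  have elx : ∀ τ : ℝ, (fun x => Real.log (Dk k x τ)) = fun x => OV3_L (OV1_e k⁻¹, (x, τ)) :=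
    fun τ => by
      funext x
      rw [OV3_Dk]
      rfl
  have elt : ∀ x : ℝ, (fun τ => Real.log (Dk k x τ)) = fun τ => OV3_L (OV1_e k⁻¹, (x, τ)) :=
    fun x => by
      funext τ
      rw [OV3_Dk]
      rfl
  refine ⟨hDpos, ?_, ?_, ?_⟩
  · intro τ
    refine ⟨?_, ?_, ?_⟩
    · rw [eqx, ← contDiffOn_univ]
      exact AM1_Qs.comp (hcx τ).contDiffOn fun x _ => hmU x τ
    · rw [epx, ← contDiffOn_univ]
      exact AM1_Ps.comp (hcx τ).contDiffOn fun x _ => hmU x τ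
    · rw [elx, ← contDiffOn_univ]
      exact OV3_Ls.comp (hcx τ).contDiffOn fun x _ => hmU x τ
  · intro x
    refine ⟨?_, ?_, ?_⟩
    · rw [eqt, ← contDiffOn_univ]
      exact AM1_Qs.comp (hct x).contDiffOn fun τ _ => hmU x τ
    · rw [ept, ← contDiffOn_univ]
      exact AM1_Ps.comp (hct x).contDiffOn fun τ _ => hmU x τ
    · rw [elt, ← contDiffOn_univ]
      exact OV3_Ls.comp (hct x).contDiffOn fun τ _ => hmU x τ
  · intro x τ hx hτ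
    have hdet0 := OV1_det k
    have hdet : k.1 0 0 * k.1 1 1 - k.1 0 1 * k.1 1 0 = 1 := hdet0
    have hlow := OV3_low (k.1 0 0) (k.1 0 1) (k.1 1 0) (k.1 1 1) x τ (hk 0 0) (hk 0 1) (hk 1 0)
      (hk 1 1) hdet hx hτ
    have hmK : ((OV1_e k⁻¹, (x, τ)) : OV3_E) ∈ KK := by
      obtain ⟨i1, i2, i3, i4⟩ := OV3_inv k
      rw [hKK]
      refine ⟨⟨⟨?_, ?_, ?_, ?_⟩, abs_le.1 hx, abs_le.1 hτ⟩, OV1_det k⁻¹⟩
      · show (k⁻¹ : SL(2, ℝ)) 0 0 ∈ Icc (-3 : ℝ) 3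
        rw [i1]
        exact abs_le.1 (hk 1 1)
      · show (k⁻¹ : SL(2, ℝ)) 0 1 ∈ Icc (-3 : ℝ) 3
        rw [i2]
        exact abs_le.1 (by rw [abs_neg]; exact hk 0 1)
      · show (k⁻¹ : SL(2, ℝ)) 1 0 ∈ Icc (-3 : ℝ) 3
        rw [i3]
        exact abs_le.1 (by rw [abs_neg]; exact hk 1 0)
      · show (k⁻¹ : SL(2, ℝ)) 1 1 ∈ Icc (-3 : ℝ) 3
        rw [i4]
        exact abs_le.1 (hk 0 0)
    refine ⟨hlow.1, hlow.2, ?_, ?_, (OV3_dx k x τ (hDpos x τ)).deriv,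
      (OV3_dt k x τ (hDpos x τ)).deriv⟩
    · intro j hj
      refine ⟨?_, ?_, ?_, ?_⟩
      · have h1 := hb1 j hj _ (OV3_lx (OV1_e k⁻¹) τ) (fun x => hmU x τ) x hmK
        rw [eqx]
        linarith
      · have h1 := hb2 j hj _ (OV3_lt (OV1_e k⁻¹) x) (fun τ => hmU x τ) τ hmK
        rw [eqt]
        linarith
      · have h1 := hb5 j hj _ (OV3_lx (OV1_e k⁻¹) τ) (fun x => hmU x τ) x hmK
        rw [Real.norm_eq_abs] at h1
        rw [epx]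
        linarith
      · have h1 := hb6 j hj _ (OV3_lt (OV1_e k⁻¹) x) (fun τ => hmU x τ) τ hmK
        rw [Real.norm_eq_abs] at h1
        rw [ept]
        linarith
    · intro j hj1 hj
      constructor
      · obtain ⟨i, rfl⟩ : ∃ i, j = i + 1 := ⟨j - 1, by omega⟩
        rw [iteratedDeriv_succ']
        have h1 : deriv (fun x => Real.log (Dk k x τ)) =
            fun x => (-2 * k.1 1 0) * OV3_H (OV1_e k⁻¹, (x, τ)) := by
          funext y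
          rw [(OV3_dx k y τ (hDpos y τ)).deriv]
          obtain ⟨_, _, i3, i4⟩ := OV3_inv k
          have h2 : OV3_H (OV1_e k⁻¹, (y, τ)) = (k.1 0 0 - k.1 1 0 * y) * (Dk k y τ)⁻¹ := by
            unfold Pool.Agent.MS.OV3_H
            rw [← OV3_Dk]
            show ((k⁻¹ : SL(2, ℝ)) 1 0 * y + (k⁻¹ : SL(2, ℝ)) 1 1) * (Dk k y τ)⁻¹ = _
            rw [i3, i4]
            ring
          rw [h2]
          ring
        rw [h1, iteratedDeriv_const_mul_field, abs_mul]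
        have h3 := hb4 i (by omega) _ (OV3_lx (OV1_e k⁻¹) τ) (fun x => hmU x τ) x hmK
        rw [Real.norm_eq_abs] at h3
        have h4 : |(-2 : ℝ) * k.1 1 0| = 2 * |k.1 1 0| := by
          rw [abs_mul]
          norm_num
        rw [h4]
        have h5 : 0 ≤ |k.1 1 0| := abs_nonneg _
        calc 2 * |k.1 1 0| * |iteratedDeriv i (fun x => OV3_H (OV1_e k⁻¹, (x, τ))) x| ≤
            2 * |k.1 1 0| * M4 := mul_le_mul_of_nonneg_left h3 (by positivity)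
          _ = (2 * M4) * |k.1 1 0| := by ring
          _ ≤ (1 + M1 + M2 + M3 + 2 * M4 + M5 + M6) * |k.1 1 0| :=
            mul_le_mul_of_nonneg_right (by linarith) h5
      · have h1 := hb3 j hj _ (OV3_lt (OV1_e k⁻¹) x) (fun τ => hmU x τ) τ hmK
        rw [Real.norm_eq_abs] at h1
        rw [elt]
        linarith

end

end Pool.Agent.RPQ
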